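import Pool.Agent.Q141.ZS.Base

/-! # Realizing sets of residues: units -/

namespace Pool.Agent.Results.MP_a37b83_nt.RealizingSets

open Pool.Agent.Q141.ZS

/-- **Every `m ∈ E` has a realizing set which contains a residue coprime to `m`** (the answer to Q2
is no). -/
theorem result :
    ∀ m ∈ E, ∃ S : Finset (ZMod m), Realizing m S ∧ ∃ a ∈ S, Nat.Coprime a.val m :=
  fun _ hm => exists_unit hm

end Pool.Agent.Results.MP_a37b83_nt.RealizingSets
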