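import Pool.Agent.Q141.ZS.Base
import Pool.Agent.Q141.ZS.Comp

/-! # Realizing sets of residues without units, small moduli -/

namespace Pool.Agent.Results.MP_a37b83_nt.SmallModuli

open Pool.Agent.Q141.ZS Finset

theorem pos_of_mem {m : ℕ} {S : Finset (ZMod m)} (hS : ZeroSumFree m S) {x : ZMod m} (hx : x ∈ S) :
    0 < x.val := by
  have h0 : x ≠ 0 := by
    rintro rfl
    exact hS {0} (by simpa using hx) ⟨0, by simp⟩ (by simp)
  exact Nat.pos_of_ne_zero fun h => h0 ((ZMod.val_eq_zero x).1 h)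

/-- a realizing set without units does not exist in the range of the search -/
theorem no_unitFree {m : ℕ} (hm : m ∈ E) (h47 : m ≤ 47) (h12 : m ≠ 12) (h18 : m ≠ 18)
    (h24 : m ≠ 24) (h30 : m ≠ 30) (h42 : m ≠ 42) :
    ¬ ∃ S : Finset (ZMod m), Realizing m S ∧ ∀ a ∈ S, ¬ Nat.Coprime a.val m := by
  rintro ⟨S, ⟨hS, hc⟩, hu⟩
  have : NeZero m := ⟨by have := hm.1; omega⟩
  have hg := check_nonUnits m (List.mem_range.2 (by omega)) hm.1 h12 h18 h24 h30 h42
  refine no_set (nonUnits m) ?_ ?_ (bN m) hg S hS ?_ ?_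
  · intro a ha
    simp only [nonUnits, List.mem_filter, List.mem_range, decide_eq_true_eq] at ha
    exact ⟨ha.2.1, ha.1⟩
  · exact List.Nodup.filter _ List.nodup_range
  · intro x hx
    simp only [nonUnits, List.mem_filter, List.mem_range, decide_eq_true_eq]
    exact ⟨ZMod.val_lt x, pos_of_mem hS hx, hu x hx⟩
  · rw [hc, k_eq hm]

/-- the sums modulo `m` of the nonempty sublists -/
def sums (m : ℕ) : List ℕ → List ℕ
  | [] => []
  | a :: l => a :: (sums m l ++ (sums m l).map fun x => (x + a) % m)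

theorem exists_sum {m : ℕ} : ∀ (l : List ℕ) (U : Finset (ZMod m)),
    (∀ x ∈ U, ∃ a ∈ l, (a : ZMod m) = x) → U.Nonempty → ∃ s ∈ sums m l, (s : ZMod m) = ∑ x ∈ U, x := by
  classical
  intro l
  induction l with
  | nil =>
    intro U hU hne
    obtain ⟨x, hx⟩ := hne
    obtain ⟨a, ha, _⟩ := hU x hx
    simp at ha
  | cons a l ih =>
    intro U hU hne
    by_cases haU : (a : ZMod m) ∈ U
    · have h1 : ∀ x ∈ U.erase (a : ZMod m), ∃ c ∈ l, (c : ZMod m) = x := by
        intro x hx
        rw [Finset.mem_erase] at hx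
        obtain ⟨c, hc, hcx⟩ := hU x hx.2
        rcases List.mem_cons.1 hc with rfl | hc
        · exact absurd hcx.symm hx.1
        · exact ⟨c, hc, hcx⟩
      have h2 : ∑ x ∈ U, x = (a : ZMod m) + ∑ x ∈ U.erase (a : ZMod m), x :=
        (Finset.add_sum_erase U (fun x => x) haU).symm
      by_cases hem : (U.erase (a : ZMod m)).Nonempty
      · obtain ⟨s, hs, hss⟩ := ih _ h1 hem
        refine ⟨(s + a) % m, ?_, ?_⟩
        · simp only [sums, List.mem_cons, List.mem_append, List.mem_map]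
          exact Or.inr (Or.inr ⟨s, hs, rfl⟩)
        · rw [ZMod.natCast_mod, Nat.cast_add, hss, h2]
          ring
      · rw [Finset.not_nonempty_iff_eq_empty] at hem
        refine ⟨a, by simp [sums], ?_⟩
        rw [h2, hem, Finset.sum_empty, add_zero]
    · have h1 : ∀ x ∈ U, ∃ c ∈ l, (c : ZMod m) = x := by
        intro x hx
        obtain ⟨c, hc, hcx⟩ := hU x hx
        rcases List.mem_cons.1 hc with rfl | hc
        · exact absurd (hcx ▸ hx) haU
        · exact ⟨c, hc, hcx⟩
      obtain ⟨s, hs, hss⟩ := ih U h1 hne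
      refine ⟨s, ?_, hss⟩
      simp only [sums, List.mem_cons, List.mem_append]
      exact Or.inr (Or.inl hs)

theorem free_of_sums {m : ℕ} [NeZero m] (S : Finset (ZMod m)) (l : List ℕ)
    (hl : ∀ x ∈ S, x.val ∈ l) (h : ∀ s ∈ sums m l, s % m ≠ 0) : ZeroSumFree m S := by
  intro T hT hne h0
  obtain ⟨s, hs, hss⟩ := exists_sum (m := m) l T
    (fun x hx => ⟨x.val, hl x (hT hx), ZMod.natCast_zmod_val x⟩) hne
  rw [h0, ZMod.natCast_eq_zero_iff] at hss
  exact h s hs (Nat.mod_eq_zero_of_dvd hss)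

/-- `42` is not in `E` -/
theorem not_mem_42 : 42 ∉ E := by
  intro hm
  have h := k_eq hm
  have h2 : bN 42 = 8 := by
    unfold bN
    rw [sqrt_aux (q := 18) (by norm_num) (by norm_num)]
  rw [h2] at h
  have h3 := le_k (m := 42) {1, 2, 3, 4, 21, 22, 23, 24, 25}
    (free_of_sums _ [1, 2, 3, 4, 21, 22, 23, 24, 25] (by decide +kernel) (by decide +kernel))
  have h4 : (({1, 2, 3, 4, 21, 22, 23, 24, 25} : Finset (ZMod 42))).card = 9 := by decide +kernel
  omega

/-- membership in `E` and a realizing set without units -/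
theorem mem_and {m n : ℕ} [NeZero m] (hm5 : 5 ≤ m) (hn : bN m = n)
    (hg : go m (allRes m) (allRes m).length 1 (bN m + 1) = false)
    (S : Finset (ZMod m)) (hS : ZeroSumFree m S) (hc : S.card = n)
    (hu : ∀ a ∈ S, ¬ Nat.Coprime a.val m) :
    m ∈ E ∧ ∃ S : Finset (ZMod m), Realizing m S ∧ ∀ a ∈ S, ¬ Nat.Coprime a.val m := by
  have h1 : n ≤ k m := hc ▸ le_k S hS
  have h2 : k m < n + 1 := by
    apply k_lt
    intro T hT
    rw [hn] at hg
    refine no_set (allRes m) ?_ ?_ (n + 1) hg T hT ?_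
    · intro a ha
      simp only [allRes, List.mem_filter, List.mem_range, decide_eq_true_eq] at ha
      exact ⟨ha.2, ha.1⟩
    · exact List.Nodup.filter _ List.nodup_range
    · intro x hx
      simp only [allRes, List.mem_filter, List.mem_range, decide_eq_true_eq]
      exact ⟨ZMod.val_lt x, pos_of_mem hT hx⟩
  have h3 : k m = n := by omega
  refine ⟨⟨hm5, ?_⟩, S, ⟨hS, hc.trans h3.symm⟩, hu⟩
  rw [b_eq, hn, h3]

theorem case12 : 12 ∈ E ∧ ∃ S : Finset (ZMod 12), Realizing 12 S ∧ ∀ a ∈ S, ¬ Nat.Coprime a.val 12 := by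
  refine mem_and (n := 4) (by norm_num) ?_ (check_all 12 (by simp)) {2, 3, 6, 8}
    (free_of_sums _ [2, 3, 6, 8] (by decide +kernel) (by decide +kernel)) (by decide +kernel) (by decide +kernel)
  unfold bN
  rw [sqrt_aux (q := 10) (by norm_num) (by norm_num)]

theorem case18 : 18 ∈ E ∧ ∃ S : Finset (ZMod 18), Realizing 18 S ∧ ∀ a ∈ S, ¬ Nat.Coprime a.val 18 := by
  refine mem_and (n := 5) (by norm_num) ?_ (check_all 18 (by simp)) {2, 3, 6, 8, 14}
    (free_of_sums _ [2, 3, 6, 8, 14] (by decide +kernel) (by decide +kernel)) (by decide +kernel) (by decide +kernel)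
  unfold bN
  rw [sqrt_aux (q := 12) (by norm_num) (by norm_num)]

theorem case24 : 24 ∈ E ∧ ∃ S : Finset (ZMod 24), Realizing 24 S ∧ ∀ a ∈ S, ¬ Nat.Coprime a.val 24 := by
  refine mem_and (n := 6) (by norm_num) ?_ (check_all 24 (by simp)) {2, 6, 8, 9, 20, 21}
    (free_of_sums _ [2, 6, 8, 9, 20, 21] (by decide +kernel) (by decide +kernel)) (by decide +kernel) (by decide +kernel)
  unfold bN
  rw [sqrt_aux (q := 14) (by norm_num) (by norm_num)]

theorem case30 : 30 ∈ E ∧ ∃ S : Finset (ZMod 30), Realizing 30 S ∧ ∀ a ∈ S, ¬ Nat.Coprime a.val 30 := by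
  refine mem_and (n := 7) (by norm_num) ?_ (check_all 30 (by simp)) {2, 5, 12, 15, 20, 22, 27}
    (free_of_sums _ [2, 5, 12, 15, 20, 22, 27] (by decide +kernel) (by decide +kernel)) (by decide +kernel) (by decide +kernel)
  unfold bN
  rw [sqrt_aux (q := 15) (by norm_num) (by norm_num)]

/-- **For `m ≤ 47` in `E` there is a realizing set without a residue coprime to `m` if and only if
`m` is `12`, `18`, `24` or `30`**, and these four numbers are in `E`. -/
theorem result : ∀ m, m ≤ 47 → ((m ∈ E ∧ ∃ S : Finset (ZMod m), Realizing m S ∧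
      ∀ a ∈ S, ¬ Nat.Coprime a.val m) ↔ m = 12 ∨ m = 18 ∨ m = 24 ∨ m = 30) := by
  refine fun m h47 => ⟨?_, ?_⟩
  · rintro ⟨hm, hS⟩
    by_contra hne
    push Not at hne
    refine no_unitFree hm h47 hne.1 hne.2.1 hne.2.2.1 hne.2.2.2 ?_ hS
    rintro rfl
    exact not_mem_42 hm
  · rintro (rfl | rfl | rfl | rfl)
    · exact case12
    · exact case18
    · exact case24
    · exact case30

end Pool.Agent.Results.MP_a37b83_nt.SmallModuli
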